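import Pool.Agent.AT10.Stmts1
import Pool.Agent.Helper32_AT5.ZIM
import Pool.Agent.Helper25_K9.ADA
import Pool.Agent.Helper20_PP.Fun

/-! Squad AT10, row GRI: the induction step of Green's theorem. -/

set_option autoImplicit false

open scoped BigOperators

noncomputable section

namespace Pool.Agent.PP.T10.H31

open Pool.Agent.Helper51_AWC Pool.Agent.Helper79_WRA Pool.Agent.PP Pool.Agent.PP.KF
open Pool.Agent.PP.K9 Pool.Agent.PP.K9.H97 Pool.Agent.PP.H75 Pool.Agent.PP.T3 Pool.Agent.PP.T2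
open Pool.Agent.PP.T5 Pool.Agent.PP.TB
open Pool.Agent.PP.T8 (rs pw fv rd Ip Rv)

attribute [local instance] Ideal.Quotient.field

section grp

variable {G : Type} [Group G] [Finite G]

/-- a subgroup of index `ℓ` of an `ℓ`-group is normal -/
theorem norm_of_index {ℓ : ℕ} (hp : ℓ.Prime) {P Q : Subgroup G} (hP : IsPGroup ℓ P)
    (hix : Q.relIndex P = ℓ) : (Q.subgroupOf P).Normal := by
  haveI : Fact ℓ.Prime := ⟨hp⟩
  apply Subgroup.normal_of_index_eq_minFac_card
  have h1 : (Q.subgroupOf P).index = ℓ := hix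
  obtain ⟨n, hn⟩ := hP.exists_card_eq
  have h2 : ℓ ∣ Nat.card P := by
    rw [← h1]
    exact Subgroup.index_dvd_card _
  have hn0 : n ≠ 0 := by
    rintro rfl
    rw [hn, pow_zero] at h2
    exact hp.one_lt.ne' (Nat.dvd_one.1 h2)
  rw [h1, hn, Nat.Prime.pow_minFac hp hn0]

theorem conj_mem {ℓ : ℕ} (hp : ℓ.Prime) {P Q : Subgroup G} (hP : IsPGroup ℓ P) (hQP : Q ≤ P)
    (hix : Q.relIndex P = ℓ) {w v : G} (hw : w ∈ P) (hv : v ∈ Q) : w * v * w⁻¹ ∈ Q := by
  have h1 := (norm_of_index hp hP hix).conj_mem ⟨v, hQP hv⟩ (Subgroup.mem_subgroupOf.2 hv) ⟨w, hw⟩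
  rw [Subgroup.mem_subgroupOf] at h1
  exact h1

theorem gg1 (w v : G) : w * (w⁻¹ * v * w) * w⁻¹ = v := by group

theorem gg2 (w v : G) : w⁻¹ * (w * v * w⁻¹) * w = v := by group

/-- the powers of an element outside `Q` represent `P/Q` -/
theorem pow_sum {ℓ : ℕ} (hp : ℓ.Prime) {P Q : Subgroup G} (hP : IsPGroup ℓ P)
    (hix : Q.relIndex P = ℓ) {A : Type} [AddCommMonoid A] (f : G → A)
    (hf : ∀ w ∈ P, ∀ v ∈ Q, f (w * v) = f w) [Fintype (P ⧸ Q.subgroupOf P)] {u : G} (hu : u ∈ P)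
    (huQ : u ∉ Q) : ∑ k ∈ Finset.range ℓ, f (u ^ k) =
      ∑ x : P ⧸ Q.subgroupOf P, f ((x.out : P) : G) := by
  classical
  haveI := norm_of_index hp hP hix
  haveI : Fact ℓ.Prime := ⟨hp⟩
  have hcard : Nat.card (P ⧸ Q.subgroupOf P) = ℓ := hix
  obtain ⟨x, hx⟩ : ∃ x : P ⧸ Q.subgroupOf P, x = QuotientGroup.mk (⟨u, hu⟩ : P) := ⟨_, rfl⟩
  have hx1 : x ≠ 1 := by
    intro h
    rw [hx, QuotientGroup.eq_one_iff, Subgroup.mem_subgroupOf] at h
    exact huQ h
  have hgen : ∀ y : P ⧸ Q.subgroupOf P, y ∈ Subgroup.zpowers x := fun y =>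
    mem_zpowers_of_prime_card hcard hx1
  have h1 : Finset.image (fun i => x ^ i) (Finset.range ℓ) = Finset.univ := by
    have := IsCyclic.image_range_card (a := x) hgen
    rwa [hcard] at this
  have hord : orderOf x = ℓ := by
    rw [orderOf_eq_card_of_forall_mem_zpowers hgen, hcard]
  have h2 : ∀ k, f (u ^ k) = f (((x ^ k).out : P) : G) := by
    intro k
    have h3 : QuotientGroup.mk ((x ^ k).out : P) =
        (QuotientGroup.mk ((⟨u, hu⟩ : P) ^ k) : P ⧸ Q.subgroupOf P) := by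
      rw [QuotientGroup.out_eq', QuotientGroup.mk_pow, hx]
    have h4 := QuotientGroup.eq.1 h3.symm
    rw [Subgroup.mem_subgroupOf] at h4
    have h5 : (((x ^ k).out : P) : G) = u ^ k *
        ((((⟨u, hu⟩ : P) ^ k)⁻¹ * (x ^ k).out : P) : G) := by
      rw [Subgroup.coe_mul, Subgroup.coe_inv, Subgroup.coe_pow]
      group
    rw [h5, hf _ (Subgroup.pow_mem _ hu _) _ h4]
  rw [Finset.sum_congr rfl fun k _ => h2 k, ← h1, Finset.sum_image]
  intro k hk m hm h
  rw [Finset.coe_range, Set.mem_Iio] at hk hm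
  exact pow_injOn_Iio_orderOf (by rw [Set.mem_Iio, hord]; exact hk)
    (by rw [Set.mem_Iio, hord]; exact hm) h

/-- the restriction of a virtual character -/
theorem res_ZI {P Q : Subgroup G} (hQP : Q ≤ P) {κ : P → ℂ} (hκ : κ ∈ ZI P) :
    (fun v : Q => κ (Subgroup.inclusion hQP v)) ∈ ZI Q := by
  unfold ZI at hκ
  induction hκ using AddSubgroup.closure_induction with
  | mem χ hχ =>
    obtain ⟨n, ρ, hρ, rfl⟩ := hχ
    exact T5.H32.char_mem_ZI (ρ.comp (Subgroup.inclusion hQP))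
  | zero => exact AddSubgroup.zero_mem _
  | add f g _ _ hf hg => exact AddSubgroup.add_mem _ hf hg
  | neg f _ hf => exact AddSubgroup.neg_mem _ hf

end grp

theorem natl {ℓ : ℕ} {M : Ideal (integralClosure ℤ ℂ)} [M.IsMaximal]
    (hM : (ℓ : integralClosure ℤ ℂ) ∈ M) : ((ℓ : ℕ) : FF M) = 0 := by
  have h1 : ((ℓ : ℕ) : FF M) = Ideal.Quotient.mk M (ℓ : integralClosure ℤ ℂ) :=
    (map_natCast (Ideal.Quotient.mk M) ℓ).symm
  rw [h1]
  exact Ideal.Quotient.eq_zero_iff_mem.2 hM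

theorem el_of {G : Type} [Group G] {ℓ : ℕ} {P : Subgroup G} (hP : IsPGroup ℓ P) {v : G}
    (hv : v ∈ P) : El ℓ v := by
  obtain ⟨n, hn⟩ := hP ⟨v, hv⟩
  refine ⟨n, ?_⟩
  have h := congrArg (fun x : P => (x : G)) hn
  simpa using h

/-- GRI -/
theorem gri (tvs : TvsStmt) (fia : FiaStmt) (fic : FicStmt) : GriStmt := by
  intro ℓ hfact M _ hM G _ _ ι _ c β hβ χ hχ P Q u j i hP hi hT hjj horth hCf
  classical
  have hp : ℓ.Prime := Fact.out
  have := Fintype.ofFinite P
  have := Fintype.ofFinite Q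
  have := Fintype.ofFinite (P ⧸ Q.subgroupOf P)
  have hQP := hT.le
  have hcl : ∀ x y, χ (y * x * y⁻¹) = χ x := fun x y => irr_conj hχ x y
  have hfi0 : ∀ v, El ℓ v → fi M c β (0 : G → FF M) χ v = 0 := by
    intro v hv
    unfold fi
    have h1 : ∀ k, c k * tv M v (mulF (rs (Cu v) (0 : G → FF M)) (β k v)) χ = 0 := by
      intro k
      have h2 : rs (Cu v) (0 : G → FF M) = 0 := by
        funext x
        unfold rs
        simp
      rw [h2, H20.zero_mulF, (tvs ℓ M hM G v hv).2.2 χ hcl, mul_zero]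
    rw [finsum_congr h1, finsum_zero]
  -- conjugates of `j`
  have hcj : ∀ w ∈ P, ∀ v ∈ Q, cj (w * v) j = cj w j := by
    intro w _ v hv
    rw [← cj_cj]
    congr 1
    exact (cj_eq_iff v j).2 (hT.iv v hv)
  have hcjv : ∀ w ∈ P, ∀ v ∈ Q, ∀ x, (cj w j) (v * x * v⁻¹) = (cj w j) x := by
    intro w hw v hv
    rw [← cj_eq_iff, cj_cj]
    have h1 : v * w = w * (w⁻¹ * v * w⁻¹⁻¹) := by group
    rw [h1]
    exact hcj w hw _ (conj_mem hp hP hQP hT.ix (P.inv_mem hw) hv)
  have hcji : ∀ w, mulF (cj w j) (cj w j) = cj w j := by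
    intro w
    rw [← cj_mulF, hjj]
  -- outside `Q`
  have hout : ∀ v ∈ P, v ∉ Q → fi M c β i χ v = 0 := by
    intro v hv hvQ
    have hrs : rs (Cu v) i = 0 := by
      funext g
      unfold rs
      by_cases hg : g ∈ Cu v
      · rw [if_pos hg]
        have hgv : g * v = v * g := Subgroup.mem_centralizer_singleton_iff.1 hg
        have hf : ∀ w ∈ P, ∀ q ∈ Q, (fun w => (cj w j) g) (w * q) = (fun w => (cj w j) g) w := by
          intro w hw q hq
          show (cj (w * q) j) g = (cj w j) g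
          rw [hcj w hw q hq]
        have h1 := pow_sum hp hP hT.ix (fun w => (cj w j) g) hf hT.mem hT.nm
        have h2 := pow_sum hp hP hT.ix (fun w => (cj w j) g) hf hv hvQ
        have h3 : i g = ∑ k ∈ Finset.range ℓ, (cj (u ^ k) j) g := by
          rw [← hT.tr, Finset.sum_apply]
        have h4 : ∀ k ∈ Finset.range ℓ, (cj (v ^ k) j) g = j g := by
          intro k _
          unfold cj
          congr 1
          have h5 : g * v ^ k = v ^ k * g := (show Commute g v from hgv).pow_right k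
          rw [mul_assoc, h5, inv_mul_cancel_left]
        rw [h3]
        refine h1.trans (h2.symm.trans ?_)
        show ∑ k ∈ Finset.range ℓ, (cj (v ^ k) j) g = (0 : G → FF M) g
        rw [Finset.sum_congr rfl h4, Finset.sum_const, Finset.card_range, nsmul_eq_mul,
          natl hM, zero_mul]
        rfl
      · rw [if_neg hg]
        rfl
    unfold fi
    have h1 : ∀ k, c k * tv M v (mulF (rs (Cu v) i) (β k v)) χ = 0 := by
      intro k
      rw [hrs, H20.zero_mulF, (tvs ℓ M hM G v (el_of hP hv)).2.2 χ hcl, mul_zero]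
    rw [finsum_congr h1, finsum_zero]
  -- inside `Q`
  have hpart : ∀ v ∈ Q, ∀ n ≤ ℓ,
      (mulF (∑ k ∈ Finset.range n, cj (u ^ k) j) (∑ k ∈ Finset.range n, cj (u ^ k) j) =
        ∑ k ∈ Finset.range n, cj (u ^ k) j) ∧
      (∀ x, (∑ k ∈ Finset.range n, cj (u ^ k) j) (v * x * v⁻¹) =
        (∑ k ∈ Finset.range n, cj (u ^ k) j) x) ∧
      (∀ m, n ≤ m → m < ℓ → mulF (∑ k ∈ Finset.range n, cj (u ^ k) j) (cj (u ^ m) j) = 0 ∧
        mulF (cj (u ^ m) j) (∑ k ∈ Finset.range n, cj (u ^ k) j) = 0) ∧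
      fi M c β (∑ k ∈ Finset.range n, cj (u ^ k) j) χ v =
        ∑ k ∈ Finset.range n, fi M c β (cj (u ^ k) j) χ v := by
    intro v hv n
    induction n with
    | zero =>
      intro _
      refine ⟨?_, ?_, ?_, ?_⟩
      · rw [Finset.sum_range_zero, H20.zero_mulF]
      · intro x
        rw [Finset.sum_range_zero]
        rfl
      · intro m _ _
        rw [Finset.sum_range_zero, H20.zero_mulF, H20.mulF_zero]
        exact ⟨rfl, rfl⟩
      · rw [Finset.sum_range_zero, Finset.sum_range_zero]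
        exact hfi0 v (el_of hP (hQP hv))
    | succ n ih =>
      intro hn
      obtain ⟨i1, i2, i3, i4⟩ := ih (by omega)
      obtain ⟨o1, o2⟩ := i3 n le_rfl (by omega)
      have huP : ∀ k, u ^ k ∈ P := fun k => Subgroup.pow_mem _ hT.mem k
      refine ⟨?_, ?_, ?_, ?_⟩
      · rw [Finset.sum_range_succ, H20.add_mulF, H20.mulF_add, H20.mulF_add, i1, o1, o2, hcji,
          add_zero, zero_add]
      · intro x
        rw [Finset.sum_range_succ, Pi.add_apply, Pi.add_apply, i2 x,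
          hcjv (u ^ n) (huP n) v hv x]
      · intro m hm hml
        obtain ⟨o3, o4⟩ := i3 m (by omega) hml
        rw [Finset.sum_range_succ, H20.add_mulF, H20.mulF_add, o3, o4,
          horth n m (by omega) hml (by omega), horth m n hml (by omega) (by omega), add_zero]
        exact ⟨rfl, rfl⟩
      · rw [Finset.sum_range_succ, Finset.sum_range_succ, ← i4]
        exact fia ℓ M hM G ι c β hβ χ hχ v (el_of hP (hQP hv)) _ _ i1 (hcji _) o1 o2 i2
          (hcjv (u ^ n) (huP n) v hv)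
  have hin : ∀ v ∈ Q, fi M c β i χ v =
      ∑ k ∈ Finset.range ℓ, fi M c β j χ ((u ^ k)⁻¹ * v * u ^ k) := by
    intro v hv
    have h1 := (hpart v hv ℓ le_rfl).2.2.2
    rw [hT.tr] at h1
    rw [h1]
    refine Finset.sum_congr rfl fun k _ => ?_
    have huP : u ^ k ∈ P := Subgroup.pow_mem _ hT.mem k
    have h2 : (u ^ k)⁻¹ * v * u ^ k ∈ Q := by
      have h3 := conj_mem hp hP hQP hT.ix (P.inv_mem huP) hv
      rwa [inv_inv] at h3
    have h4 := fic ℓ M hM G ι c β hβ χ hχ ((u ^ k)⁻¹ * v * u ^ k) (u ^ k)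
      (el_of hP (hQP h2)) j hjj (hT.iv _ h2)
    have h5 : u ^ k * ((u ^ k)⁻¹ * v * u ^ k) * (u ^ k)⁻¹ = v := gg1 _ _
    rw [h5] at h4
    exact h4
  -- the sum
  intro κ hκ
  have hκcl := K9.H25.zi_cl hκ
  have hS := hCf _ (res_ZI hQP hκ)
  rw [finsum_eq_sum_of_fintype] at hS ⊢
  have hsum : ∑ v : P, fi M c β i χ v * κ v =
      (ℓ : ℂ) * ∑ v : Q, fi M c β j χ v * κ (Subgroup.inclusion hQP v) := by
    have e1 : ∑ v : P, fi M c β i χ v * κ v =
        ∑ v : Q, fi M c β i χ v * κ (Subgroup.inclusion hQP v) := by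
      symm
      refine Finset.sum_of_injOn (Subgroup.inclusion hQP)
        ((Subgroup.inclusion_injective hQP).injOn) (fun _ _ => Finset.mem_coe.2
          (Finset.mem_univ _)) ?_ ?_
      · intro v _ hv
        have hvQ : (v : G) ∉ Q := by
          intro h
          apply hv
          exact ⟨⟨v, h⟩, Finset.mem_coe.2 (Finset.mem_univ _), Subtype.ext rfl⟩
        rw [hout v v.2 hvQ, zero_mul]
      · intro v _
        rfl
    have e2 : ∀ k ∈ Finset.range ℓ, ∑ v : Q, fi M c β j χ ((u ^ k)⁻¹ * (v : G) * u ^ k) *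
        κ (Subgroup.inclusion hQP v) =
        ∑ v : Q, fi M c β j χ v * κ (Subgroup.inclusion hQP v) := by
      intro k _
      have huP : u ^ k ∈ P := Subgroup.pow_mem _ hT.mem k
      let E : Q ≃ Q :=
        { toFun := fun v => ⟨(u ^ k)⁻¹ * (v : G) * u ^ k, by
            have h3 := conj_mem hp hP hQP hT.ix (P.inv_mem huP) v.2
            rwa [inv_inv] at h3⟩
          invFun := fun v => ⟨u ^ k * (v : G) * (u ^ k)⁻¹,
            conj_mem hp hP hQP hT.ix huP v.2⟩
          left_inv := fun v => Subtype.ext (gg1 (u ^ k) v)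
          right_inv := fun v => Subtype.ext (gg2 (u ^ k) v) }
      refine Fintype.sum_equiv E _ _ fun v => ?_
      have h6 : κ (Subgroup.inclusion hQP (E v)) = κ (Subgroup.inclusion hQP v) := by
        rw [← hκcl (Subgroup.inclusion hQP v) ⟨(u ^ k)⁻¹, P.inv_mem huP⟩]
        congr 1
        apply Subtype.ext
        show (u ^ k)⁻¹ * (v : G) * u ^ k = (u ^ k)⁻¹ * (v : G) * ((u ^ k)⁻¹)⁻¹
        rw [inv_inv]
      rw [h6]
      rfl
    rw [e1]
    have e3 : ∑ v : Q, fi M c β i χ v * κ (Subgroup.inclusion hQP v) =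
        ∑ v : Q, ∑ k ∈ Finset.range ℓ, fi M c β j χ ((u ^ k)⁻¹ * (v : G) * u ^ k) *
          κ (Subgroup.inclusion hQP v) := by
      refine Finset.sum_congr rfl fun v _ => ?_
      rw [hin v v.2, Finset.sum_mul]
    rw [e3, Finset.sum_comm, Finset.sum_congr rfl e2, Finset.sum_const, Finset.card_range,
      nsmul_eq_mul]
  have hcard : (Nat.card P : ℂ) = ℓ * Nat.card Q := by
    have h1 := Subgroup.relIndex_mul_relIndex (⊥ : Subgroup G) Q P bot_le hQP
    rw [hT.ix, Subgroup.relIndex_bot_left, Subgroup.relIndex_bot_left] at h1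
    rw [← h1]
    push_cast
    ring
  have hl0 : (ℓ : ℂ) ≠ 0 := by exact_mod_cast hp.ne_zero
  rw [hsum, hcard, mul_inv, mul_comm (ℓ : ℂ)⁻¹, mul_assoc, inv_mul_cancel_left₀ hl0]
  exact hS

end Pool.Agent.PP.T10.H31
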